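import Mathlib
import Pool.Agent.Run7.h352.AlmostLaw4

/-!
# MP_ffcf77_al: a word which holds with probability tending to one and is not a law
-/

open Filter Topology

namespace Pool.Agent.Results.MP_ffcf77_al.SolvableAlmostLaw

/-- The probability `p_n(w)` for the lazy random walk with respect to `S`: all `d * n` steps of
the `d` walks are chosen independently and uniformly in `S ∪ {1}`; `ω i j` is the `j`-th step of
the `i`-th walk, and the position of the `i`-th walk is the ordered product of its steps. -/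
noncomputable def prob {G : Type} [Group G] (S : Set G) {d : ℕ} (w : FreeGroup (Fin d))
    (n : ℕ) : ℝ :=
  (Nat.card {ω : Fin d → Fin n → {g : G // g = 1 ∨ g ∈ S} //
    FreeGroup.lift (fun i => (List.ofFn fun j => (ω i j : G)).prod) w = 1} : ℝ) /
  (Nat.card (Fin d → Fin n → {g : G // g = 1 ∨ g ∈ S}) : ℝ)

open Run7.h352.AlmostLaw Run7.h352.Lamp Run7.h352.Equidist

/-- The projection to a lamplighter group. -/
noncomputable def proj (p : Nat.Primes) : GG →* L (p : ℕ) :=
  (Pi.evalMonoidHom (fun p : Nat.Primes => L (p : ℕ)) p).comp (pr.comp GG.subtype)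

theorem proj_apply (p : Nat.Primes) (x : GG) : proj p x = (x : BG).h p := rfl

theorem proj_range (p : Nat.Primes) : (proj p).range = ⊤ := by
  rw [eq_top_iff, ← closure_eq_top (q := (p : ℕ)), Subgroup.closure_le]
  have ha : aE ∈ GG := Subgroup.subset_closure (by simp)
  have ht : tE ∈ GG := Subgroup.subset_closure (by simp)
  rintro x (rfl | rfl)
  · exact ⟨⟨aE, ha⟩, rfl⟩
  · exact ⟨⟨tE, ht⟩, rfl⟩

theorem tendsto_prob (S : Set GG) (hS : S.Finite) (hgen : Subgroup.closure S = ⊤) :
    Tendsto (prob S ww) atTop (𝓝 1) := by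
  classical
  let α : Type := {g : GG // g = 1 ∨ g ∈ S}
  have hfin : Finite α := by
    have : {g : GG | g = 1 ∨ g ∈ S}.Finite := by
      have h : {g : GG | g = 1 ∨ g ∈ S} = insert 1 S := by
        ext g; simp
      rw [h]
      exact hS.insert 1
    exact this
  have : Fintype α := Fintype.ofFinite α
  let one : α := ⟨1, Or.inl rfl⟩
  have : Nonempty α := ⟨one⟩
  have htot : ∀ n, (0 : ℝ) < Fintype.card (Fin 2 → Fin n → α) := by
    intro n
    exact_mod_cast Fintype.card_pos
  have hP : ∀ n, prob S ww n = (∑ ω : Fin 2 → Fin n → α,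
      if FreeGroup.lift (fun i => (List.ofFn fun j => (ω i j : GG)).prod) ww = 1 then
        (1 : ℝ) else 0) / (Fintype.card (Fin 2 → Fin n → α) : ℝ) := by
    intro n
    unfold prob
    rw [Nat.card_eq_fintype_card, Nat.card_eq_fintype_card, Fintype.card_subtype]
    rw [Finset.sum_boole]
  have hle : ∀ n, prob S ww n ≤ 1 := by
    intro n
    rw [hP, div_le_one (htot n)]
    calc _ ≤ ∑ ω : Fin 2 → Fin n → α, (1 : ℝ) :=
          Finset.sum_le_sum fun ω _ => by split_ifs <;> norm_num
      _ = _ := by rw [Finset.sum_const, Finset.card_univ, nsmul_eq_mul, mul_one]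
  rw [Metric.tendsto_atTop]
  intro ε hε
  obtain ⟨p, hp⟩ := exists_small ε hε
  let φ : α → L (p : ℕ) := fun x => proj p x.1
  have hφ : Subgroup.closure (Set.range φ) = ⊤ := by
    rw [eq_top_iff, ← proj_range p, MonoidHom.range_eq_map, ← hgen, MonoidHom.map_closure]
    refine Subgroup.closure_mono ?_
    rintro _ ⟨x, hx, rfl⟩
    exact ⟨⟨x, Or.inr hx⟩, rfl⟩
  have hprod : ∀ (n : ℕ) (s : Fin n → α), (List.ofFn fun j => φ (s j)).prod =
      proj p (List.ofFn fun j => (s j : GG)).prod := by
    intro n s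
    rw [map_list_prod, List.map_ofFn]
    rfl
  have hlim := pair_tendsto φ hφ one (map_one (proj p)) (Bad (p : ℕ))
  have hev := (hlim.eventually (gt_mem_nhds hp))
  obtain ⟨N, hN⟩ := Filter.eventually_atTop.mp hev
  refine ⟨N, fun n hn => ?_⟩
  have h1 := hN n hn
  have h2 : 1 - prob S ww n ≤ (∑ ω : Fin 2 → Fin n → α, if ((List.ofFn fun j => φ (ω 0 j)).prod,
      (List.ofFn fun j => φ (ω 1 j)).prod) ∈ Bad (p : ℕ) then (1 : ℝ) else 0) /
      (Fintype.card (Fin 2 → Fin n → α) : ℝ) := by
    rw [hP, one_sub_div (htot n).ne']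
    refine div_le_div_of_nonneg_right ?_ (htot n).le
    have h3 : (Fintype.card (Fin 2 → Fin n → α) : ℝ) = ∑ ω : Fin 2 → Fin n → α, (1 : ℝ) := by
      rw [Finset.sum_const, Finset.card_univ, nsmul_eq_mul, mul_one]
    rw [h3, ← Finset.sum_sub_distrib]
    refine Finset.sum_le_sum fun ω _ => ?_
    by_cases h4 : FreeGroup.lift (fun i => (List.ofFn fun j => (ω i j : GG)).prod) ww = 1
    · rw [if_pos h4]
      split_ifs <;> norm_num
    · rw [if_neg h4, sub_zero]
      have h5 : ((List.ofFn fun j => φ (ω 0 j)).prod,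
          (List.ofFn fun j => φ (ω 1 j)).prod) ∈ Bad (p : ℕ) := by
        rw [hprod, hprod, proj_apply, proj_apply]
        refine bad_of_ne _ _ (fun h6 => h4 ?_) p
        rw [lift_ww]
        exact Subtype.ext h6
      rw [if_pos h5]
  rw [Real.dist_eq, abs_sub_comm, abs_of_nonneg (sub_nonneg.mpr (hle n))]
  exact h2.trans_lt h1

/-- There are a finitely generated solvable group and a word in two letters which is not a law of
the group but holds with probability tending to one along lazy random walks with respect to every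
finite generating set. -/
theorem result : ∃ (G : Type) (_ : Group G) (w : FreeGroup (Fin 2)),
    (∃ S : Set G, S.Finite ∧ Subgroup.closure S = ⊤) ∧ Group.IsSolvable G ∧
    (∃ g : Fin 2 → G, FreeGroup.lift g w ≠ 1) ∧
    ∀ S : Set G, S.Finite → Subgroup.closure S = ⊤ → Tendsto (prob S w) atTop (𝓝 1) := by
  have he : eE ∈ GG := Subgroup.subset_closure (by simp)
  have ha : aE ∈ GG := Subgroup.subset_closure (by simp)
  have ht : tE ∈ GG := Subgroup.subset_closure (by simp)
  refine ⟨GG, inferInstance, ww, ?_, ?_, ?_, tendsto_prob⟩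
  · have hfg : Group.FG GG := by
      have : GG.FG := (Subgroup.fg_iff GG).mpr ⟨{eE, aE, tE}, rfl, Set.toFinite _⟩
      exact (Group.fg_iff_subgroup_fg _).mpr this
    obtain ⟨S, hS, hfin⟩ := Group.fg_iff.mp hfg
    exact ⟨S, hfin, hS⟩
  · have := solvable_BG
    infer_instance
  · refine ⟨![⟨tE, ht⟩, ⟨aE * eE, GG.mul_mem ha he⟩], ?_⟩
    rw [lift_ww]
    intro h
    apply not_law
    exact congrArg Subtype.val h

end Pool.Agent.Results.MP_ffcf77_al.SolvableAlmostLaw
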